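import Mathlib

open Finset Real

namespace Pool.Agent.H332R2

lemma zeta_hasSum_pos (m : ℕ) (hm : m ≠ 0) :
    0 < ((-1 : ℝ) ^ (m + 1) * (2 : ℝ) ^ (2 * m - 1) * π ^ (2 * m) *
        bernoulli (2 * m) / (Nat.factorial (2 * m))) := by
  have h := hasSum_zeta_nat hm
  rw [← h.tsum_eq]
  refine h.summable.tsum_pos (fun n => by positivity) 1 (by simp)

lemma bern_ne_zero (m : ℕ) : bernoulli (2 * m) ≠ 0 := by
  rcases Nat.eq_zero_or_pos m with rfl | hm
  · simp
  · intro h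
    have := zeta_hasSum_pos m hm.ne'
    rw [h] at this
    simp at this

lemma abs_bern_le (m : ℕ) (hm : m ≠ 0) :
    |((bernoulli (2 * m) : ℚ) : ℝ)| ≤ 4 * (Nat.factorial (2 * m)) / (2 * π) ^ (2 * m) := by
  have h := hasSum_zeta_nat hm
  have h2 := hasSum_zeta_two
  have hle : ((-1 : ℝ) ^ (m + 1) * (2 : ℝ) ^ (2 * m - 1) * π ^ (2 * m) *
        bernoulli (2 * m) / (Nat.factorial (2 * m))) ≤ π ^ 2 / 6 := by
    refine hasSum_le (fun n => ?_) h h2
    rcases Nat.eq_zero_or_pos n with rfl | hn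
    · simp [hm]
    · have h1 : (1 : ℝ) ≤ n := by exact_mod_cast hn
      refine one_div_le_one_div_of_le (by positivity) ?_
      exact pow_le_pow_right₀ h1 (by omega)
  have hpos := zeta_hasSum_pos m hm
  have hpi : π ^ 2 / 6 ≤ 2 := by
    have := Real.pi_lt_d2
    have h0 := Real.pi_pos
    nlinarith
  have habs : |((-1 : ℝ) ^ (m + 1) * (2 : ℝ) ^ (2 * m - 1) * π ^ (2 * m) *
        bernoulli (2 * m) / (Nat.factorial (2 * m)))| ≤ 2 := by
    rw [abs_of_pos hpos]; linarith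
  rw [abs_div, abs_mul, abs_mul, abs_mul, abs_pow, abs_neg, abs_one, one_pow, one_mul,
    abs_of_pos (by positivity : (0 : ℝ) < 2 ^ (2 * m - 1)),
    abs_of_pos (by positivity : (0 : ℝ) < π ^ (2 * m)),
    abs_of_pos (by positivity : (0 : ℝ) < (Nat.factorial (2 * m) : ℝ)),
    div_le_iff₀ (by positivity)] at habs
  rw [le_div_iff₀ (by positivity)]
  have h2m : (2 : ℝ) ^ (2 * m) = 2 * 2 ^ (2 * m - 1) := by
    rw [← pow_succ']; congr 1; omega
  rw [mul_pow, h2m]
  nlinarith [habs]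

lemma den_dvd (m : ℕ) : (bernoulli (2 * m)).den ∣ primorial (2 * m + 1) := by
  obtain ⟨z, hz⟩ := Bernoulli.vonStaudt_clausen m
  have hb : bernoulli (2 * m) = (z : ℚ) - ∑ p ∈ range (2 * m + 2) with p.Prime ∧ (p - 1) ∣ 2 * m,
      (1 : ℚ) / p := by rw [hz]; ring
  -- primorial * bernoulli is an integer
  have hint : ∃ w : ℤ, ((primorial (2 * m + 1) : ℕ) : ℚ) * bernoulli (2 * m) = w := by
    refine ⟨(primorial (2 * m + 1) : ℤ) * z - ∑ p ∈ range (2 * m + 2) with p.Prime ∧ (p - 1) ∣ 2 * m,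
      ((primorial (2 * m + 1) / p : ℕ) : ℤ), ?_⟩
    rw [hb, mul_sub, Finset.mul_sum, Int.cast_sub, Int.cast_mul, Int.cast_natCast, Int.cast_sum]
    congr 1
    refine Finset.sum_congr rfl (fun p hp => ?_)
    rw [Int.cast_natCast]
    rw [Finset.mem_filter, Finset.mem_range] at hp
    have hdvd : p ∣ primorial (2 * m + 1) := by
      unfold primorial
      exact Finset.dvd_prod_of_mem (fun x => x) (by
        exact Finset.mem_filter.mpr ⟨Finset.mem_range.mpr (by omega), hp.2.1⟩)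
    rw [Nat.cast_div hdvd (by exact_mod_cast hp.2.1.ne_zero)]
    ring
  obtain ⟨w, hw⟩ := hint
  have hq : (((primorial (2 * m + 1) : ℕ) : ℚ) * bernoulli (2 * m)) = w := hw
  -- den divides
  have h1 : bernoulli (2 * m) = (w : ℚ) / ((primorial (2 * m + 1) : ℕ) : ℤ) := by
    have hp : ((primorial (2 * m + 1) : ℕ) : ℚ) ≠ 0 := by
      exact_mod_cast (primorial_pos _).ne'
    rw [← hw]; push_cast; field_simp
  have h2 : ((bernoulli (2 * m)).den : ℤ) ∣ ((primorial (2 * m + 1) : ℕ) : ℤ) := by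
    rw [h1, ← Rat.divInt_eq_div]
    exact Rat.den_dvd w ((primorial (2 * m + 1) : ℕ) : ℤ)
  exact_mod_cast h2

lemma den_le (m : ℕ) : (bernoulli (2 * m)).den ≤ 4 ^ (2 * m + 1) :=
  (Nat.le_of_dvd (primorial_pos _) (den_dvd m)).trans (primorial_le_four_pow _)

lemma num_le (m : ℕ) (hm : m ≠ 0) :
    (((bernoulli (2 * m)).num.natAbs : ℕ) : ℝ) ≤ (2 * (m : ℝ)) ^ (2 * m) := by
  rcases Nat.lt_or_ge m 2 with h1 | h2
  · have : m = 1 := by omega
    subst this
    have hb : bernoulli (2 * 1) = 6⁻¹ := bernoulli_two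
    rw [hb]
    have : ((6 : ℚ)⁻¹).num = 1 := by norm_num
    rw [this]
    norm_num
  · have habs := abs_bern_le m hm
    have hden := den_le m
    have hnum : (((bernoulli (2 * m)).num.natAbs : ℕ) : ℝ)
        = |((bernoulli (2 * m) : ℚ) : ℝ)| * ((bernoulli (2 * m)).den : ℝ) := by
      have h : ((bernoulli (2 * m) : ℚ)) = (bernoulli (2 * m)).num / (bernoulli (2 * m)).den :=
        (Rat.num_div_den _).symm
      have hd : ((bernoulli (2 * m)).den : ℝ) ≠ 0 := by
        exact_mod_cast (bernoulli (2 * m)).den_ne_zero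
      have h3 : ((bernoulli (2 * m) : ℚ) : ℝ) = ((bernoulli (2 * m)).num : ℝ) / ((bernoulli (2 * m)).den : ℝ) := by
        exact_mod_cast congrArg (fun q : ℚ => (q : ℝ)) h
      rw [h3, abs_div, Nat.abs_cast, div_mul_cancel₀ _ hd, Nat.cast_natAbs, Int.cast_abs]
    rw [hnum]
    have hden' : ((bernoulli (2 * m)).den : ℝ) ≤ 4 ^ (2 * m + 1) := by exact_mod_cast hden
    have hfac : ((Nat.factorial (2 * m) : ℕ) : ℝ) ≤ (2 * (m : ℝ)) ^ (2 * m) := by
      have := Nat.factorial_le_pow (2 * m)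
      exact_mod_cast this
    have hpi : (3 : ℝ) < π := Real.pi_gt_three
    have hstep : |((bernoulli (2 * m) : ℚ) : ℝ)| * ((bernoulli (2 * m)).den : ℝ)
        ≤ (4 * (Nat.factorial (2 * m)) / (2 * π) ^ (2 * m)) * 4 ^ (2 * m + 1) :=
      mul_le_mul habs hden' (by positivity) (by positivity)
    refine hstep.trans ?_
    have h49 : (4 * (Nat.factorial (2 * m) : ℝ) / (2 * π) ^ (2 * m)) * 4 ^ (2 * m + 1)
        ≤ 16 * (Nat.factorial (2 * m) : ℝ) * (4 / 9) ^ m := by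
      have h6 : (6 : ℝ) ^ (2 * m) ≤ (2 * π) ^ (2 * m) :=
        pow_le_pow_left₀ (by norm_num) (by linarith) _
      have h7 : (4 * (Nat.factorial (2 * m) : ℝ) / (2 * π) ^ (2 * m)) ≤
          4 * (Nat.factorial (2 * m) : ℝ) / 6 ^ (2 * m) :=
        div_le_div_of_nonneg_left (by positivity) (by positivity) h6
      calc (4 * (Nat.factorial (2 * m) : ℝ) / (2 * π) ^ (2 * m)) * 4 ^ (2 * m + 1)
          ≤ (4 * (Nat.factorial (2 * m) : ℝ) / 6 ^ (2 * m)) * 4 ^ (2 * m + 1) :=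
            mul_le_mul_of_nonneg_right h7 (by positivity)
        _ = 16 * (Nat.factorial (2 * m) : ℝ) * (4 / 9) ^ m := by
            have h8 : (4 / 9 : ℝ) ^ m = 4 ^ (2 * m) / 6 ^ (2 * m) := by
              rw [← div_pow, pow_mul]; norm_num
            rw [h8, pow_succ]; ring
    refine h49.trans ?_
    rcases Nat.lt_or_ge m 4 with h4 | h4
    · interval_cases m
      · norm_num [Nat.factorial]
      · norm_num [Nat.factorial]
    · have h10 : (4 / 9 : ℝ) ^ m ≤ (4 / 9) ^ 4 :=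
        pow_le_pow_of_le_one (by norm_num) (by norm_num) h4
      have h11 : 16 * (4 / 9 : ℝ) ^ m ≤ 1 := by
        have : (16 : ℝ) * (4 / 9) ^ 4 ≤ 1 := by norm_num
        linarith
      calc 16 * (Nat.factorial (2 * m) : ℝ) * (4 / 9) ^ m
          = (Nat.factorial (2 * m) : ℝ) * (16 * (4 / 9 : ℝ) ^ m) := by ring
        _ ≤ (Nat.factorial (2 * m) : ℝ) * 1 := mul_le_mul_of_nonneg_left h11 (by positivity)
        _ ≤ (2 * (m : ℝ)) ^ (2 * m) := by rw [mul_one]; exact hfac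

/-- the absolute value of the numerator of `B_{2m}` -/
noncomputable def nu (m : ℕ) : ℕ := (bernoulli (2 * m)).num.natAbs

lemma nu_ne_zero (m : ℕ) : nu m ≠ 0 := by
  unfold nu
  rw [Ne, Int.natAbs_eq_zero, Rat.num_eq_zero]
  exact bern_ne_zero m

lemma log_nu_le (m : ℕ) (hm : m ≠ 0) : Real.log (nu m) ≤ 2 * m * Real.log (2 * m) := by
  have h := num_le m hm
  have hpos : (0 : ℝ) < nu m := by exact_mod_cast Nat.pos_of_ne_zero (nu_ne_zero m)
  have := Real.log_le_log hpos h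
  rw [Real.log_pow] at this
  push_cast at this
  exact this

lemma dvd_nu_iff (p m : ℕ) : (p : ℤ) ∣ (bernoulli (2 * m)).num ↔ p ∣ nu m := by
  unfold nu
  rw [Int.natCast_dvd]

/-- few large primes divide a nonzero integer -/
lemma card_primes_dvd (N : ℕ) (hN : N ≠ 0) (Y : ℝ) (hY : 1 ≤ Y) (S : Finset ℕ)
    (hS : ∀ p ∈ S, p.Prime ∧ Y ≤ p ∧ p ∣ N) : (S.card : ℝ) * Real.log Y ≤ Real.log N := by
  have hprod : ∏ p ∈ S, p ∣ N :=
    Finset.prod_primes_dvd N (fun p hp => (hS p hp).1.prime) (fun p hp => (hS p hp).2.2)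
  have h1 : (∏ p ∈ S, (p : ℝ)) ≤ N := by
    have := Nat.le_of_dvd (Nat.pos_of_ne_zero hN) hprod
    rw [← Nat.cast_prod]
    exact Nat.cast_le.mpr this
  have h2 : Y ^ S.card ≤ ∏ p ∈ S, (p : ℝ) := by
    rw [← Finset.prod_const]
    exact Finset.prod_le_prod (fun p _ => by linarith) (fun p hp => (hS p hp).2.1)
  have h3 : (0 : ℝ) < Y ^ S.card := by positivity
  have := Real.log_le_log h3 (h2.trans h1)
  rwa [Real.log_pow] at this

end Pool.Agent.H332R2
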