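import Mathlib
import Pool.Agent.H332R2.BernSize

open Finset

namespace Pool.Agent.H332R2

section cast
variable {F : Type*} [Field F]

lemma den_mul_ne {q r : ℚ} (hq : (q.den : F) ≠ 0) (hr : (r.den : F) ≠ 0) :
    ((q * r).den : F) ≠ 0 := by
  obtain ⟨c, hc⟩ := Rat.mul_den_dvd q r
  intro h0
  have : ((q.den * r.den : ℕ) : F) = 0 := by rw [hc]; push_cast; rw [h0, zero_mul]
  push_cast at this
  rcases mul_eq_zero.mp this with h1 | h1
  · exact hq h1
  · exact hr h1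

lemma den_add_ne {q r : ℚ} (hq : (q.den : F) ≠ 0) (hr : (r.den : F) ≠ 0) :
    ((q + r).den : F) ≠ 0 := by
  obtain ⟨c, hc⟩ := Rat.add_den_dvd q r
  intro h0
  have : ((q.den * r.den : ℕ) : F) = 0 := by rw [hc]; push_cast; rw [h0, zero_mul]
  push_cast at this
  rcases mul_eq_zero.mp this with h1 | h1
  · exact hq h1
  · exact hr h1

lemma den_nat_ne (n : ℕ) : (((n : ℚ)).den : F) ≠ 0 := by
  rw [Rat.den_natCast]; simp

lemma cast_sum_ok (s : Finset ℕ) (f : ℕ → ℚ) (h : ∀ k ∈ s, ((f k).den : F) ≠ 0) :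
    (((∑ k ∈ s, f k : ℚ)).den : F) ≠ 0 ∧ ((∑ k ∈ s, f k : ℚ) : F) = ∑ k ∈ s, (f k : F) := by
  classical
  induction s using Finset.induction_on with
  | empty => simp
  | insert a s ha ih =>
    have h1 := ih (fun k hk => h k (Finset.mem_insert_of_mem hk))
    have h2 := h a (Finset.mem_insert_self a s)
    rw [Finset.sum_insert ha, Finset.sum_insert ha]
    refine ⟨den_add_ne h2 h1.1, ?_⟩
    rw [Rat.cast_add_of_ne_zero h2 h1.1, h1.2]

lemma den_pow_ne {q : ℚ} (hq : (q.den : F) ≠ 0) (n : ℕ) : ((q ^ n).den : F) ≠ 0 := by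
  rw [Rat.den_pow]; push_cast; exact pow_ne_zero _ hq

lemma cast_pow_ok {q : ℚ} (hq : (q.den : F) ≠ 0) (n : ℕ) : ((q ^ n : ℚ) : F) = (q : F) ^ n := by
  induction n with
  | zero => simp
  | succ n ih => rw [pow_succ, Rat.cast_mul_of_ne_zero (den_pow_ne hq n) hq, ih, pow_succ]

end cast

variable {p : ℕ} [hp : Fact p.Prime]

lemma nat_ne_zero {k : ℕ} (h1 : 0 < k) (h2 : k < p) : ((k : ℕ) : ZMod p) ≠ 0 := by
  intro h
  rw [ZMod.natCast_eq_zero_iff] at h
  exact absurd (Nat.le_of_dvd h1 h) (by omega)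

lemma fact_ne_zero {k : ℕ} (h2 : k < p) : ((k.factorial : ℕ) : ZMod p) ≠ 0 := by
  intro h
  rw [ZMod.natCast_eq_zero_iff] at h
  have := (hp.out.dvd_factorial).mp h
  omega

lemma bern_den_ne {k : ℕ} (hk : k + 2 ≤ p) (hp3 : 3 ≤ p) :
    (((bernoulli k).den : ℕ) : ZMod p) ≠ 0 := by
  intro h
  rw [ZMod.natCast_eq_zero_iff] at h
  rcases Nat.even_or_odd' k with ⟨m, hm | hm⟩
  · subst hm
    have h2 := h.trans (den_dvd m)
    unfold primorial at h2
    rw [hp.out.prime.dvd_finsetProd_iff] at h2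
    obtain ⟨q, hq, hd⟩ := h2
    rw [Finset.mem_filter, Finset.mem_range] at hq
    have := Nat.le_of_dvd hq.2.pos hd
    omega
  · rcases Nat.eq_zero_or_pos m with h0 | h0
    · subst h0
      subst hm
      have h2 : (bernoulli (2 * 0 + 1)) = -1 / 2 := bernoulli_one
      rw [h2] at h
      have h3 : ((-1 / 2 : ℚ)).den = 2 := by norm_num
      rw [h3] at h
      have := Nat.le_of_dvd (by norm_num) h
      omega
    · have h2 : bernoulli k = 0 := bernoulli_eq_zero_of_odd ⟨m, hm⟩ (by omega)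
      rw [h2] at h
      simp at h
      have := hp.out.one_lt
      omega

/-- `B_k / k!` modulo `p` -/
noncomputable def cc (p : ℕ) [Fact p.Prime] (k : ℕ) : ZMod p :=
  ((bernoulli k : ℚ) : ZMod p) * ((k.factorial : ℕ) : ZMod p)⁻¹

lemma cc_eq_zero_iff {k : ℕ} (hk : k + 2 ≤ p) (hp3 : 3 ≤ p) :
    cc p k = 0 ↔ (p : ℤ) ∣ (bernoulli k).num := by
  unfold cc
  rw [mul_eq_zero, inv_eq_zero, Rat.cast_def, div_eq_zero_iff]
  have h1 := fact_ne_zero (p := p) (k := k) (by omega)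
  have h2 := bern_den_ne (p := p) hk hp3
  rw [ZMod.intCast_zmod_eq_zero_iff_dvd]
  tauto

/-- the basic recursion modulo `p` -/
lemma cc_zero : cc p 0 = 1 := by
  unfold cc
  simp

lemma cc_rec {m : ℕ} (h2 : 2 ≤ m) (hm : m + 1 ≤ p) :
    ∑ k ∈ range m, cc p k * (((m - k).factorial : ℕ) : ZMod p)⁻¹ = 0 := by
  have h3 : 3 ≤ p := by omega
  have h := _root_.sum_bernoulli m
  rw [if_neg (by omega)] at h
  have hden : ∀ k ∈ range m, (((((m.choose k : ℕ) : ℚ) * bernoulli k)).den : ZMod p) ≠ 0 := by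
    intro k hk
    rw [Finset.mem_range] at hk
    exact den_mul_ne (den_nat_ne _) (bern_den_ne (by omega) h3)
  have h4 := (cast_sum_ok (F := ZMod p) (range m) (fun k => ((m.choose k : ℕ) : ℚ) * bernoulli k) hden).2
  rw [h, Rat.cast_zero] at h4
  have hmf := fact_ne_zero (p := p) (k := m) (by omega)
  have h5 : ∑ k ∈ range m, cc p k * (((m - k).factorial : ℕ) : ZMod p)⁻¹ =
      ((m.factorial : ℕ) : ZMod p)⁻¹ * ∑ k ∈ range m, ((((m.choose k : ℕ) : ℚ) * bernoulli k : ℚ) : ZMod p) := by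
    rw [Finset.mul_sum]
    refine Finset.sum_congr rfl (fun k hk => ?_)
    rw [Finset.mem_range] at hk
    rw [Rat.cast_mul_of_ne_zero (den_nat_ne _) (bern_den_ne (by omega) h3), Rat.cast_natCast]
    have h6 := Nat.choose_mul_factorial_mul_factorial hk.le
    have h7 : ((m.choose k : ℕ) : ZMod p) * ((k.factorial : ℕ) : ZMod p) * (((m - k).factorial : ℕ) : ZMod p)
      = ((m.factorial : ℕ) : ZMod p) := by exact_mod_cast congrArg (fun n : ℕ => (n : ZMod p)) h6
    have hkf := fact_ne_zero (p := p) (k := k) (by omega)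
    have hmkf := fact_ne_zero (p := p) (k := m - k) (by omega)
    unfold cc
    rw [← h7]
    have hch : ((m.choose k : ℕ) : ZMod p) ≠ 0 := by
      intro h0; rw [h0] at h7; simp at h7; exact hmf h7.symm
    field_simp
  rw [h5, ← h4, mul_zero]

/-- value at one half -/
lemma cc_half {l : ℕ} (hl : l + 2 ≤ p) (h3 : 3 ≤ p) :
    ∑ k ∈ range (l + 1), cc p k * ((((l - k).factorial : ℕ) : ZMod p)⁻¹ * (2⁻¹ : ZMod p) ^ (l - k)) =
      (2 * (2⁻¹) ^ l - 1) * cc p l := by
  -- rational identity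
  have hQ : ∑ k ∈ range (l + 1), ((l.choose k : ℕ) : ℚ) * bernoulli k * (2⁻¹ : ℚ) ^ (l - k) =
      (2 * (2⁻¹) ^ l - 1) * bernoulli l := by
    have h := bernoulliFun_eval_half l
    unfold bernoulliFun at h
    rw [show (2⁻¹ : ℝ) = algebraMap ℚ ℝ (2⁻¹ : ℚ) by simp, Polynomial.eval_map_algebraMap,
      Polynomial.aeval_algebraMap_apply] at h
    have h' : ((Polynomial.aeval (2⁻¹ : ℚ) (Polynomial.bernoulli l) : ℚ) : ℝ) =
      (((2 * (2⁻¹) ^ l - 1) * bernoulli l : ℚ) : ℝ) := by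
      rw [eq_ratCast] at h
      rw [h]
      push_cast
      rw [inv_pow]
      rfl
    have h2 : (Polynomial.aeval (2⁻¹ : ℚ) (Polynomial.bernoulli l) : ℚ) =
      (2 * (2⁻¹) ^ l - 1) * bernoulli l := by exact_mod_cast h'
    rw [← h2, Polynomial.bernoulli, map_sum]
    refine Finset.sum_congr rfl (fun k hk => ?_)
    rw [Polynomial.aeval_monomial]
    simp
    ring
  have hden2 : ((((2 : ℚ)⁻¹).den : ℕ) : ZMod p) ≠ 0 := by
    have h4 : ((2 : ℚ)⁻¹).den = 2 := by norm_num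
    rw [h4]
    exact nat_ne_zero (by norm_num) (by omega)
  have hcast2 : (((2 : ℚ)⁻¹ : ℚ) : ZMod p) = (2 : ZMod p)⁻¹ := by
    rw [Rat.cast_inv_of_ne_zero]
    · simp
    · simp
      have := nat_ne_zero (p := p) (k := 2) (by norm_num) (by omega)
      exact_mod_cast this
  have hden : ∀ k ∈ range (l + 1), ((((((l.choose k : ℕ) : ℚ) * bernoulli k * (2⁻¹ : ℚ) ^ (l - k))).den : ℕ) : ZMod p) ≠ 0 := by
    intro k hk
    rw [Finset.mem_range] at hk
    exact den_mul_ne (den_mul_ne (den_nat_ne _) (bern_den_ne (by omega) h3)) (den_pow_ne hden2 _)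
  have h4 := (cast_sum_ok (F := ZMod p) (range (l + 1)) _ hden).2
  rw [hQ] at h4
  have hlf := fact_ne_zero (p := p) (k := l) (by omega)
  have h5 : ∑ k ∈ range (l + 1), cc p k * ((((l - k).factorial : ℕ) : ZMod p)⁻¹ * (2⁻¹ : ZMod p) ^ (l - k)) =
      ((l.factorial : ℕ) : ZMod p)⁻¹ * ∑ k ∈ range (l + 1),
        ((((l.choose k : ℕ) : ℚ) * bernoulli k * (2⁻¹ : ℚ) ^ (l - k) : ℚ) : ZMod p) := by
    rw [Finset.mul_sum]
    refine Finset.sum_congr rfl (fun k hk => ?_)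
    rw [Finset.mem_range] at hk
    have hb := bern_den_ne (p := p) (k := k) (by omega) h3
    rw [Rat.cast_mul_of_ne_zero (den_mul_ne (den_nat_ne _) hb) (den_pow_ne hden2 _),
      Rat.cast_mul_of_ne_zero (den_nat_ne _) hb, Rat.cast_natCast, cast_pow_ok hden2, hcast2]
    have h6 := Nat.choose_mul_factorial_mul_factorial (show k ≤ l by omega)
    have h7 : ((l.choose k : ℕ) : ZMod p) * ((k.factorial : ℕ) : ZMod p) * (((l - k).factorial : ℕ) : ZMod p)
      = ((l.factorial : ℕ) : ZMod p) := by exact_mod_cast congrArg (fun n : ℕ => (n : ZMod p)) h6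
    have hkf := fact_ne_zero (p := p) (k := k) (by omega)
    have hmkf := fact_ne_zero (p := p) (k := l - k) (by omega)
    unfold cc
    rw [← h7]
    have hch : ((l.choose k : ℕ) : ZMod p) ≠ 0 := by
      intro h0; rw [h0] at h7; simp at h7; exact hlf h7.symm
    field_simp
  have hb := bern_den_ne (p := p) (k := l) (by omega) h3
  rw [h5, ← h4]
  have hden3 : ((((2 * (2⁻¹) ^ l - 1 : ℚ)).den : ℕ) : ZMod p) ≠ 0 := by
    rw [sub_eq_add_neg]
    refine den_add_ne (den_mul_ne ?_ (den_pow_ne hden2 _)) (by simp)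
    simp
  rw [Rat.cast_mul_of_ne_zero hden3 hb]
  have h8 : ((2 * (2⁻¹) ^ l - 1 : ℚ) : ZMod p) = 2 * (2⁻¹ : ZMod p) ^ l - 1 := by
    rw [sub_eq_add_neg, Rat.cast_add_of_ne_zero (den_mul_ne (by simp) (den_pow_ne hden2 _)) (by simp),
      Rat.cast_mul_of_ne_zero (by simp) (den_pow_ne hden2 _), cast_pow_ok hden2, hcast2]
    simp [sub_eq_add_neg]
  rw [h8]
  unfold cc
  ring

end Pool.Agent.H332R2
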