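import Mathlib
import Pool.Agent.H332R2.BernSize

open Finset Filter Topology Real

namespace Pool.Agent.H332R2

/-- number of `m ∈ [1,K]` with `p ∣ num B_{2m}` -/
noncomputable def irr (p K : ℕ) : ℕ :=
  ((Finset.Icc 1 K).filter (fun m => (p : ℤ) ∣ (bernoulli (2 * m)).num)).card

lemma irr_le (p K : ℕ) : irr p K ≤ K := by
  unfold irr
  refine (Finset.card_filter_le _ _).trans ?_
  simp

lemma rpow_tail_step (s : ℝ) (hs : 0 < s) (m : ℕ) (hm : 2 ≤ m) :
    (m : ℝ) ^ (-(1 + s)) ≤ (1 / s) * (((m - 1 : ℕ) : ℝ) ^ (-s) - (m : ℝ) ^ (-s)) := by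
  have hm0 : (0 : ℝ) < m := by positivity
  have hm1 : (0 : ℝ) < ((m - 1 : ℕ) : ℝ) := by
    exact_mod_cast (by omega : 0 < m - 1)
  have hcast : ((m - 1 : ℕ) : ℝ) = m * (1 - 1 / m) := by
    rw [Nat.cast_sub (by omega)]; field_simp; simp
  have hx0 : (0 : ℝ) < 1 - 1 / m := by
    have : (0 : ℝ) < m * (1 - 1 / m) := hcast ▸ hm1
    exact (pos_iff_pos_of_mul_pos this).mp hm0
  have h1 : (1 : ℝ) + s / m ≤ (1 - 1 / (m : ℝ)) ^ (-s) := by
    rw [Real.rpow_def_of_pos hx0]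
    have hlog : Real.log (1 - 1 / (m : ℝ)) ≤ - (1 / m) := by
      have := Real.log_le_sub_one_of_pos hx0
      linarith
    have hexp := Real.add_one_le_exp (Real.log (1 - 1 / (m : ℝ)) * -s)
    have : s / m ≤ Real.log (1 - 1 / (m : ℝ)) * -s := by
      have := mul_le_mul_of_nonneg_right hlog hs.le
      have h2 : s / (m : ℝ) = (1 / m) * s := by ring
      rw [h2]; linarith
    linarith
  have h2 : ((m - 1 : ℕ) : ℝ) ^ (-s) = (m : ℝ) ^ (-s) * (1 - 1 / (m : ℝ)) ^ (-s) := by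
    rw [hcast, Real.mul_rpow hm0.le hx0.le]
  have h3 : (m : ℝ) ^ (-(1 + s)) = (m : ℝ) ^ (-s) * (1 / m) := by
    rw [neg_add, add_comm, Real.rpow_add hm0, Real.rpow_neg_one, one_div]
  have hpos : 0 < (m : ℝ) ^ (-s) := Real.rpow_pos_of_pos hm0 _
  rw [h2, h3]
  have h4 : (m : ℝ) ^ (-s) * (1 / m) * s ≤ (m : ℝ) ^ (-s) * (1 - 1 / (m : ℝ)) ^ (-s) - (m : ℝ) ^ (-s) := by
    have := mul_le_mul_of_nonneg_left h1 hpos.le
    have h5 : (m : ℝ) ^ (-s) * (1 + s / m) = (m : ℝ) ^ (-s) + (m : ℝ) ^ (-s) * (1 / m) * s := by ring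
    linarith
  rw [one_div_mul_eq_div, le_div_iff₀ hs]
  exact h4

lemma rpow_tail (s : ℝ) (hs : 0 < s) (K M : ℕ) (hK : 1 ≤ K) :
    ∑ m ∈ Finset.Ioc K M, (m : ℝ) ^ (-(1 + s)) ≤ (1 / s) * (K : ℝ) ^ (-s) := by
  have key : ∀ M, K ≤ M → ∑ m ∈ Finset.Ioc K M, (m : ℝ) ^ (-(1 + s))
      ≤ (1 / s) * ((K : ℝ) ^ (-s) - (M : ℝ) ^ (-s)) := by
    intro M hM
    induction M, hM using Nat.le_induction with
    | base => simp
    | succ M hM ih =>
      rw [Finset.sum_Ioc_succ_top hM]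
      have := rpow_tail_step s hs (M + 1) (by omega)
      simp only [Nat.add_sub_cancel] at this
      have h2 : (1 / s) * ((K : ℝ) ^ (-s) - ((M + 1 : ℕ) : ℝ) ^ (-s)) =
        (1 / s) * ((K : ℝ) ^ (-s) - (M : ℝ) ^ (-s)) + (1 / s) * ((M : ℝ) ^ (-s) - ((M + 1 : ℕ) : ℝ) ^ (-s)) := by
        ring
      rw [h2]
      exact add_le_add ih this
  rcases Nat.lt_or_ge M K with h | h
  · rw [Finset.Ioc_eq_empty (by omega)]
    simp only [Finset.sum_empty]
    positivity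
  · refine (key M h).trans ?_
    have : 0 ≤ (M : ℝ) ^ (-s) := by positivity
    have h1 : 0 < 1 / s := by positivity
    nlinarith

/-- Chebyshev lower bound in the form used here. -/
lemma pi_lower : ∀ᶠ X : ℕ in atTop, (X : ℝ) / (2 * Real.log X) ≤
    (((Finset.range (X + 1)).filter Nat.Prime).card : ℝ) := by
  have hlog : Tendsto (fun X : ℕ => Real.log ((X : ℝ) + 1) / (X : ℝ)) atTop (𝓝 0) := by
    have h1 : Tendsto (fun x : ℝ => Real.log x / (x + (-1))) atTop (𝓝 0) := by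
      have := Real.tendsto_pow_log_div_mul_add_atTop 1 (-1) 1 one_ne_zero
      simpa using this
    have h2 : Tendsto (fun X : ℕ => (X : ℝ) + 1) atTop atTop :=
      tendsto_atTop_add_const_right _ _ tendsto_natCast_atTop_atTop
    have := h1.comp h2
    refine this.congr (fun X => ?_)
    simp
  have hev : ∀ᶠ X : ℕ in atTop, Real.log ((X : ℝ) + 1) / (X : ℝ) < 1 / 10 :=
    hlog.eventually (gt_mem_nhds (by norm_num))
  filter_upwards [hev, eventually_ge_atTop 2] with X hX hX2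
  have hX0 : (0 : ℝ) < X := by positivity
  have hX1 : (1 : ℝ) < X := by exact_mod_cast (by omega : 1 < X)
  have hlogpos : 0 < Real.log X := Real.log_pos hX1
  have h1 := Chebyshev.psi_ge X
  have h2 := Chebyshev.psi_le_primeCounting_mul_log X
  have h3 : (Nat.primeCounting X : ℝ) = (((Finset.range (X + 1)).filter Nat.Prime).card : ℝ) := by
    rw [Nat.primeCounting, Nat.primeCounting', Nat.count_eq_card_filter_range]
  rw [← h3, div_le_iff₀ (by positivity)]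
  rw [div_lt_iff₀ hX0] at hX
  have h4 : (0.6931471803 : ℝ) < Real.log 2 := Real.log_two_gt_d9
  nlinarith

/-- Count of primes dividing some numerator with index at most `K`. -/
lemma card_small (Y : ℝ) (hY : 1 ≤ Y) (P : Finset ℕ) (K : ℕ)
    (hP : ∀ p ∈ P, p.Prime ∧ Y ≤ p ∧ ∃ m ∈ Finset.Icc 1 K, p ∣ nu m) :
    (P.card : ℝ) * Real.log Y ≤
      ∑ m ∈ Finset.Icc 1 K, Real.log (nu m) := by
  have hsub : P ⊆
      (Finset.Icc 1 K).biUnion (fun m => P.filter (fun p => p ∣ nu m)) := by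
    intro p hp
    obtain ⟨_, _, m, hm, hd⟩ := hP p hp
    rw [Finset.mem_biUnion]
    exact ⟨m, hm, Finset.mem_filter.mpr ⟨hp, hd⟩⟩
  have h1 : P.card ≤
      ∑ m ∈ Finset.Icc 1 K, (P.filter (fun p => p ∣ nu m)).card :=
    (Finset.card_le_card hsub).trans Finset.card_biUnion_le
  have hlog : 0 ≤ Real.log Y := Real.log_nonneg hY
  calc (P.card : ℝ) * Real.log Y
      ≤ (∑ m ∈ Finset.Icc 1 K, ((P.filter (fun p => p ∣ nu m)).card : ℝ)) * Real.log Y := by
        refine mul_le_mul_of_nonneg_right ?_ hlog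
        exact_mod_cast h1
    _ = ∑ m ∈ Finset.Icc 1 K, ((P.filter (fun p => p ∣ nu m)).card : ℝ) * Real.log Y := by
        rw [Finset.sum_mul]
    _ ≤ ∑ m ∈ Finset.Icc 1 K, Real.log (nu m) := by
        refine Finset.sum_le_sum (fun m _ => ?_)
        refine card_primes_dvd (nu m) (nu_ne_zero m) Y hY _ (fun p hp => ?_)
        rw [Finset.mem_filter] at hp
        exact ⟨(hP p hp.1).1, (hP p hp.1).2.1, hp.2⟩

/-- weighted count -/
lemma card_weighted (Y : ℝ) (hY : 1 ≤ Y) (P : Finset ℕ) (hP : ∀ p ∈ P, p.Prime ∧ Y ≤ p)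
    (K M : ℕ) (w : ℕ → ℝ) (hw : ∀ m, 0 ≤ w m) (c : ℝ)
    (hbad : ∀ p ∈ P, c ≤ ∑ m ∈ (Finset.Ioc K M).filter (fun m => p ∣ nu m), w m) :
    (P.card : ℝ) * c * Real.log Y ≤ ∑ m ∈ Finset.Ioc K M, w m * Real.log (nu m) := by
  have hlog : 0 ≤ Real.log Y := Real.log_nonneg hY
  have h1 : (P.card : ℝ) * c ≤ ∑ m ∈ Finset.Ioc K M, w m * ((P.filter (fun p => p ∣ nu m)).card : ℝ) := by
    calc (P.card : ℝ) * c = ∑ p ∈ P, c := by rw [Finset.sum_const, nsmul_eq_mul]
      _ ≤ ∑ p ∈ P, ∑ m ∈ (Finset.Ioc K M).filter (fun m => p ∣ nu m), w m :=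
          Finset.sum_le_sum hbad
      _ = ∑ p ∈ P, ∑ m ∈ Finset.Ioc K M, if p ∣ nu m then w m else 0 := by
          refine Finset.sum_congr rfl (fun p _ => ?_)
          rw [Finset.sum_filter]
      _ = ∑ m ∈ Finset.Ioc K M, ∑ p ∈ P, if p ∣ nu m then w m else 0 := Finset.sum_comm
      _ = ∑ m ∈ Finset.Ioc K M, w m * ((P.filter (fun p => p ∣ nu m)).card : ℝ) := by
          refine Finset.sum_congr rfl (fun m _ => ?_)
          rw [← Finset.sum_filter, Finset.sum_const, nsmul_eq_mul, mul_comm]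
  calc (P.card : ℝ) * c * Real.log Y
      ≤ (∑ m ∈ Finset.Ioc K M, w m * ((P.filter (fun p => p ∣ nu m)).card : ℝ)) * Real.log Y :=
        mul_le_mul_of_nonneg_right h1 hlog
    _ = ∑ m ∈ Finset.Ioc K M, w m * (((P.filter (fun p => p ∣ nu m)).card : ℝ) * Real.log Y) := by
        rw [Finset.sum_mul]
        refine Finset.sum_congr rfl (fun m _ => by ring)
    _ ≤ _ := by
        refine Finset.sum_le_sum (fun m _ => ?_)
        refine mul_le_mul_of_nonneg_left ?_ (hw m)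
        refine card_primes_dvd (nu m) (nu_ne_zero m) Y hY _ (fun p hp => ?_)
        rw [Finset.mem_filter] at hp
        exact ⟨(hP p hp.1).1, (hP p hp.1).2, hp.2⟩

end Pool.Agent.H332R2
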