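import Mathlib
import Pool.Agent.H332R2.CastLem

open Finset Polynomial

namespace Pool.Agent.H332R2

variable {p : ℕ} [hp : Fact p.Prime]

/-- the polynomial `B_l(z)/l!` modulo `p` -/
noncomputable def PP (p : ℕ) [Fact p.Prime] (l : ℕ) : (ZMod p)[X] :=
  ∑ k ∈ range (l + 1), C (cc p k * (((l - k).factorial : ℕ) : ZMod p)⁻¹) * X ^ (l - k)

/-- Nörlund polynomials (order `N+1`, divided by `l!`) modulo `p` -/
noncomputable def QQ (p : ℕ) [Fact p.Prime] : ℕ → ℕ → (ZMod p)[X]
  | 0, l => PP p l
  | (N + 1), 0 => QQ p N 0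
  | (N + 1), (l + 1) => C (1 - ((l + 1 : ℕ) : ZMod p) * ((N + 1 : ℕ) : ZMod p)⁻¹) * QQ p N (l + 1)
      + (C (((N + 1 : ℕ) : ZMod p)⁻¹) * X - 1) * QQ p N l

lemma PP_zero : PP p 0 = 1 := by
  unfold PP
  simp [cc_zero]

lemma PP_coeff (l j : ℕ) (hj : j ≤ l) :
    (PP p l).coeff j = cc p (l - j) * ((j.factorial : ℕ) : ZMod p)⁻¹ := by
  unfold PP
  rw [finsetSum_coeff]
  rw [Finset.sum_eq_single (l - j)]
  · rw [coeff_C_mul, coeff_X_pow, if_pos (by omega), mul_one]
    congr 3
    congr 1
    omega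
  · intro k hk hne
    rw [Finset.mem_range] at hk
    rw [coeff_C_mul, coeff_X_pow, if_neg (by omega), mul_zero]
  · intro h
    exfalso
    exact h (Finset.mem_range.mpr (by omega))

lemma PP_natDegree_le (l : ℕ) : (PP p l).natDegree ≤ l := by
  unfold PP
  refine natDegree_sum_le_of_forall_le _ _ (fun k hk => ?_)
  refine (natDegree_C_mul_X_pow_le _ _).trans (by omega)

lemma PP_derivative {l : ℕ} (hl : l + 2 ≤ p) : derivative (PP p (l + 1)) = PP p l := by
  unfold PP
  rw [Finset.sum_range_succ, map_add, map_sum]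
  simp only [Nat.sub_self, pow_zero, mul_one, derivative_C, add_zero]
  refine Finset.sum_congr rfl (fun k hk => ?_)
  rw [Finset.mem_range] at hk
  rw [derivative_C_mul_X_pow]
  have h1 : l + 1 - k = (l - k) + 1 := by omega
  rw [h1, Nat.add_sub_cancel, Nat.factorial_succ]
  congr 2
  have h2 := nat_ne_zero (p := p) (k := l - k + 1) (by omega) (by omega)
  have h3 := fact_ne_zero (p := p) (k := l - k) (by omega)
  push_cast at h2 ⊢
  field_simp

lemma PP_diff {l : ℕ} (hl : l + 2 ≤ p) (z : ZMod p) :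
    (PP p (l + 1)).eval (z + 1) = (PP p (l + 1)).eval z + z ^ l * ((l.factorial : ℕ) : ZMod p)⁻¹ := by
  -- expand the binomial powers
  have hexp : (PP p (l + 1)).eval (z + 1) = ∑ j ∈ range (l + 2), z ^ j * ((j.factorial : ℕ) : ZMod p)⁻¹ *
      ∑ k ∈ range (l + 2 - j), cc p k * (((l + 1 - j - k).factorial : ℕ) : ZMod p)⁻¹ := by
    unfold PP
    rw [eval_finsetSum]
    simp only [eval_mul, eval_C, eval_pow, eval_X]
    have h1 : ∀ k ∈ range (l + 1 + 1), cc p k * (((l + 1 - k).factorial : ℕ) : ZMod p)⁻¹ * (z + 1) ^ (l + 1 - k)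
      = ∑ j ∈ range (l + 2 - k), z ^ j * ((j.factorial : ℕ) : ZMod p)⁻¹ *
        (cc p k * (((l + 1 - j - k).factorial : ℕ) : ZMod p)⁻¹) := by
      intro k hk
      rw [Finset.mem_range] at hk
      rw [add_pow, Finset.mul_sum]
      have h2 : l + 1 - k + 1 = l + 2 - k := by omega
      rw [h2]
      refine Finset.sum_congr rfl (fun j hj => ?_)
      rw [Finset.mem_range] at hj
      have hjle : j ≤ l + 1 - k := by omega
      have h6 := Nat.choose_mul_factorial_mul_factorial hjle
      have h7 : (((l + 1 - k).choose j : ℕ) : ZMod p) * ((j.factorial : ℕ) : ZMod p) *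
          (((l + 1 - k - j).factorial : ℕ) : ZMod p) = (((l + 1 - k).factorial : ℕ) : ZMod p) := by
        exact_mod_cast congrArg (fun n : ℕ => (n : ZMod p)) h6
      have e1 : l + 1 - k - j = l + 1 - j - k := by omega
      rw [e1] at h7
      have f1 := fact_ne_zero (p := p) (k := j) (by omega)
      have f2 := fact_ne_zero (p := p) (k := l + 1 - j - k) (by omega)
      have f3 := fact_ne_zero (p := p) (k := l + 1 - k) (by omega)
      rw [one_pow, mul_one]
      rw [← h7] at f3 ⊢
      have hch : (((l + 1 - k).choose j : ℕ) : ZMod p) ≠ 0 := by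
        intro h0; rw [h0] at f3; simp at f3
      field_simp
    rw [Finset.sum_congr rfl h1]
    simp_rw [Finset.mul_sum]
    rw [Finset.sum_comm' (t' := range (l + 2)) (s' := fun j => range (l + 2 - j))]
    intro k j
    simp only [Finset.mem_range]
    omega
  rw [hexp]
  have hz : (PP p (l + 1)).eval z = ∑ j ∈ range (l + 2), z ^ j * ((j.factorial : ℕ) : ZMod p)⁻¹ * cc p (l + 1 - j) := by
    rw [eval_eq_sum_range' (n := l + 2) (by have := PP_natDegree_le (p := p) (l + 1); omega)]
    refine Finset.sum_congr rfl (fun j hj => ?_)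
    rw [Finset.mem_range] at hj
    rw [PP_coeff _ _ (by omega)]
    ring
  rw [hz]
  have hsplit : ∀ j ∈ range (l + 2), z ^ j * ((j.factorial : ℕ) : ZMod p)⁻¹ *
      ∑ k ∈ range (l + 2 - j), cc p k * (((l + 1 - j - k).factorial : ℕ) : ZMod p)⁻¹ =
      z ^ j * ((j.factorial : ℕ) : ZMod p)⁻¹ * cc p (l + 1 - j) +
        (if j = l then z ^ l * ((l.factorial : ℕ) : ZMod p)⁻¹ else 0) := by
    intro j hj
    rw [Finset.mem_range] at hj
    have h2 : l + 2 - j = (l + 1 - j) + 1 := by omega
    rw [h2, Finset.sum_range_succ, Nat.sub_self, Nat.factorial_zero, Nat.cast_one, inv_one, mul_one]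
    rcases Nat.lt_trichotomy j l with h | h | h
    · rw [if_neg (by omega), cc_rec (by omega) (by omega)]
      ring
    · subst h
      rw [if_pos rfl]
      have h3 : j + 1 - j = 1 := by omega
      rw [h3, Finset.sum_range_one, cc_zero]
      simp
      ring
    · have h3 : j = l + 1 := by omega
      subst h3
      simp
  rw [Finset.sum_congr rfl hsplit, Finset.sum_add_distrib]
  congr 1
  rw [Finset.sum_ite_eq' (range (l + 2)) l, if_pos (Finset.mem_range.mpr (by omega))]

lemma QQ_zero_right (N : ℕ) : QQ p N 0 = 1 := by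
  induction N with
  | zero => exact PP_zero
  | succ N ih => rw [QQ, ih]

lemma QQ_natDegree_le (N l : ℕ) : (QQ p N l).natDegree ≤ l := by
  induction N generalizing l with
  | zero => exact PP_natDegree_le l
  | succ N ih =>
    cases l with
    | zero => rw [QQ]; exact ih 0
    | succ l =>
      rw [QQ]
      refine (natDegree_add_le _ _).trans (max_le ?_ ?_)
      · exact (natDegree_C_mul_le _ _).trans (ih _)
      · refine natDegree_mul_le.trans ?_
        have h1 : (C (((N + 1 : ℕ) : ZMod p)⁻¹) * X - 1 : (ZMod p)[X]).natDegree ≤ 1 := by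
          refine (natDegree_sub_le _ _).trans (max_le ?_ ?_)
          · refine (natDegree_C_mul_le _ _).trans natDegree_X_le
          · simp
        have := ih l
        omega

lemma QQ_coeff_top (N l : ℕ) (hl : l < p) :
    (QQ p N l).coeff l = ((l.factorial : ℕ) : ZMod p)⁻¹ := by
  induction N generalizing l with
  | zero =>
    rw [QQ, PP_coeff _ _ le_rfl, Nat.sub_self, cc_zero, one_mul]
  | succ N ih =>
    cases l with
    | zero => rw [QQ]; exact ih 0 hl
    | succ l =>
      have e0 : (C (((N + 1 : ℕ) : ZMod p)⁻¹) * X - 1) * QQ p N l =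
          C (((N + 1 : ℕ) : ZMod p)⁻¹) * (X * QQ p N l) - QQ p N l := by ring
      rw [QQ, coeff_add, coeff_C_mul, ih (l + 1) hl, e0, coeff_sub, coeff_C_mul,
        coeff_X_mul, ih l (by omega), coeff_eq_zero_of_natDegree_lt (n := l + 1) (by
          have := QQ_natDegree_le (p := p) N l
          omega), sub_zero]
      have h1 := nat_ne_zero (p := p) (k := l + 1) (by omega) hl
      have h2 := fact_ne_zero (p := p) (k := l) (by omega)
      rw [Nat.factorial_succ]
      rw [Nat.cast_mul, mul_inv]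
      have h3 : ((l + 1 : ℕ) : ZMod p) * (((l + 1 : ℕ) : ZMod p)⁻¹ * ((l.factorial : ℕ) : ZMod p)⁻¹) =
        ((l.factorial : ℕ) : ZMod p)⁻¹ := by
        rw [← mul_assoc, mul_inv_cancel₀ h1, one_mul]
      calc (1 - ((l + 1 : ℕ) : ZMod p) * ((N + 1 : ℕ) : ZMod p)⁻¹) *
            (((l + 1 : ℕ) : ZMod p)⁻¹ * ((l.factorial : ℕ) : ZMod p)⁻¹) +
            ((N + 1 : ℕ) : ZMod p)⁻¹ * ((l.factorial : ℕ) : ZMod p)⁻¹
          = ((l + 1 : ℕ) : ZMod p)⁻¹ * ((l.factorial : ℕ) : ZMod p)⁻¹ -
            ((N + 1 : ℕ) : ZMod p)⁻¹ * (((l + 1 : ℕ) : ZMod p) * (((l + 1 : ℕ) : ZMod p)⁻¹ * ((l.factorial : ℕ) : ZMod p)⁻¹)) +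
            ((N + 1 : ℕ) : ZMod p)⁻¹ * ((l.factorial : ℕ) : ZMod p)⁻¹ := by ring
        _ = _ := by rw [h3]; ring

lemma QQ_derivative (N l : ℕ) (hl : l + 2 ≤ p) (hN : N < p) :
    derivative (QQ p N (l + 1)) = QQ p N l := by
  induction N generalizing l with
  | zero => exact PP_derivative hl
  | succ N ih =>
    have hN1 := nat_ne_zero (p := p) (k := N + 1) (by omega) hN
    have e : ∀ l, QQ p (N + 1) (l + 1) = C (1 - ((l + 1 : ℕ) : ZMod p) * ((N + 1 : ℕ) : ZMod p)⁻¹) * QQ p N (l + 1)
      + (C (((N + 1 : ℕ) : ZMod p)⁻¹) * X - 1) * QQ p N l := fun l => by rw [QQ]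
    have hd : derivative (C (((N + 1 : ℕ) : ZMod p)⁻¹) * X - 1 : (ZMod p)[X]) = C (((N + 1 : ℕ) : ZMod p)⁻¹) := by
      simp
    rw [e, derivative_add, derivative_C_mul, derivative_mul, ih l hl (by omega), hd]
    cases l with
    | zero =>
      rw [QQ_zero_right, QQ_zero_right]
      simp only [derivative_one, mul_zero, add_zero, mul_one]
      rw [← C_add]
      rw [← C_1]
      congr 1
      push_cast; ring
    | succ l =>
      rw [ih l (by omega) (by omega), e]
      have : (C (1 - ((l + 1 : ℕ) : ZMod p) * ((N + 1 : ℕ) : ZMod p)⁻¹) : (ZMod p)[X]) =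
        C (1 - ((l + 1 + 1 : ℕ) : ZMod p) * ((N + 1 : ℕ) : ZMod p)⁻¹) + C (((N + 1 : ℕ) : ZMod p)⁻¹) := by
        rw [← C_add]; congr 1; push_cast; ring
      rw [this]
      ring

lemma QQ_diff (N l : ℕ) (hl : l + 2 ≤ p) (hN : N + 1 < p) (z : ZMod p) :
    (QQ p (N + 1) (l + 1)).eval (z + 1) = (QQ p (N + 1) (l + 1)).eval z + (QQ p N l).eval z := by
  have e : ∀ N l, QQ p (N + 1) (l + 1) = C (1 - ((l + 1 : ℕ) : ZMod p) * ((N + 1 : ℕ) : ZMod p)⁻¹) * QQ p N (l + 1)
      + (C (((N + 1 : ℕ) : ZMod p)⁻¹) * X - 1) * QQ p N l := fun N l => by rw [QQ]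
  induction N generalizing l with
  | zero =>
    rw [e]
    simp only [QQ, zero_add, Nat.cast_one, inv_one, mul_one, map_one, one_mul, eval_add, eval_mul, eval_C,
      eval_sub, eval_X, eval_one]
    rw [PP_diff hl]
    cases l with
    | zero =>
      rw [PP_zero]
      simp
    | succ l =>
      rw [PP_diff (by omega)]
      have h2 := fact_ne_zero (p := p) (k := l) (by omega)
      have h1 := nat_ne_zero (p := p) (k := l + 1) (by omega) (by omega)
      rw [Nat.factorial_succ, Nat.cast_mul, mul_inv]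
      push_cast at h1 ⊢
      field_simp
      ring
  | succ N ih =>
    have hN1 := nat_ne_zero (p := p) (k := N + 1) (by omega) (by omega)
    have hN2 := nat_ne_zero (p := p) (k := N + 1 + 1) (by omega) (by omega)
    rw [e (N + 1) l]
    simp only [eval_add, eval_mul, eval_C, eval_sub, eval_X, eval_one]
    rw [ih l hl (by omega)]
    cases l with
    | zero =>
      rw [QQ_zero_right, QQ_zero_right, e N 0, QQ_zero_right]
      simp only [eval_add, eval_mul, eval_C, eval_sub, eval_X, eval_one]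
      push_cast at hN1 hN2 ⊢
      field_simp
      ring
    | succ l =>
      rw [ih l (by omega) (by omega), e N l]
      simp only [eval_add, eval_mul, eval_C, eval_sub, eval_X, eval_one]
      push_cast at hN1 hN2 ⊢
      field_simp
      ring

end Pool.Agent.H332R2
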