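import Mathlib
import Pool.Agent.H332R2.Norlund

open Finset Polynomial

namespace Pool.Agent.H332R2

variable {p : ℕ} [hp : Fact p.Prime]

lemma PP_eval_zero (l : ℕ) : (PP p l).eval 0 = cc p l := by
  rw [← coeff_zero_eq_eval_zero, PP_coeff l 0 (Nat.zero_le _)]
  simp

lemma PP_eval_half {l : ℕ} (hl : l + 2 ≤ p) (h3 : 3 ≤ p) :
    (PP p l).eval (2⁻¹ : ZMod p) = (2 * (2⁻¹) ^ l - 1) * cc p l := by
  rw [← cc_half hl h3]
  unfold PP
  rw [eval_finsetSum]
  refine Finset.sum_congr rfl (fun k _ => ?_)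
  simp only [eval_mul, eval_C, eval_pow, eval_X]
  ring

lemma QQ_vanish (n w : ℕ) (hn : 1 ≤ n) (hw : w + 2 ≤ p)
    (hc : ∀ k, n + 1 ≤ k → k ≤ w → cc p k = 0) (N : ℕ) :
    ∀ l, n + N + 1 ≤ l → l ≤ w → ∀ j, j ≤ 2 * (N + 1) →
      (QQ p N l).eval ((j : ZMod p) * 2⁻¹) = 0 := by
  induction N with
  | zero =>
    intro l hl hlw j hj
    rw [QQ]
    have hcl : cc p l = 0 := hc l (by omega) hlw
    have h3 : 3 ≤ p := by omega
    have h2 := nat_ne_zero (p := p) (k := 2) (by norm_num) (by omega)
    have hj' : j = 0 ∨ j = 1 ∨ j = 2 := by omega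
    rcases hj' with rfl | rfl | rfl
    · simp only [Nat.cast_zero, zero_mul]
      rw [PP_eval_zero, hcl]
    · simp only [Nat.cast_one, one_mul]
      rw [PP_eval_half (by omega) h3, hcl, mul_zero]
    · have h22 : ((2 : ℕ) : ZMod p) * (2 : ZMod p)⁻¹ = 1 := by
        have := mul_inv_cancel₀ h2
        push_cast at this ⊢
        exact this
      rw [h22]
      obtain ⟨l', rfl⟩ : ∃ l', l = l' + 1 := ⟨l - 1, by omega⟩
      have h4 := PP_diff (p := p) (l := l') (by omega) 0
      rw [zero_add, PP_eval_zero, hcl, zero_add, zero_pow (by omega), zero_mul] at h4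
      exact h4
  | succ N ih =>
    intro l hl hlw
    obtain ⟨l', rfl⟩ : ∃ l', l = l' + 1 := ⟨l - 1, by omega⟩
    have h3 : 3 ≤ p := by omega
    have h2 := nat_ne_zero (p := p) (k := 2) (by norm_num) (by omega)
    have hfirst : ∀ j, j ≤ 2 * (N + 1) → (QQ p (N + 1) (l' + 1)).eval ((j : ZMod p) * 2⁻¹) = 0 := by
      intro j hj
      rw [QQ]
      simp only [eval_add, eval_mul, eval_C, eval_sub, eval_X, eval_one]
      rw [ih (l' + 1) (by omega) hlw j hj, ih l' (by omega) (by omega) j hj]
      ring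
    intro j hj
    rcases Nat.lt_or_ge (2 * (N + 1)) j with h | h
    · obtain ⟨i, rfl⟩ : ∃ i, j = i + 2 := ⟨j - 2, by omega⟩
      have e1 : ((i + 2 : ℕ) : ZMod p) * 2⁻¹ = (i : ZMod p) * 2⁻¹ + 1 := by
        push_cast
        rw [add_mul]
        congr 1
        exact mul_inv_cancel₀ (by exact_mod_cast h2)
      rw [e1, QQ_diff N l' (by omega) (by omega), hfirst i (by omega), ih l' (by omega) (by omega) i (by omega),
        add_zero]
    · exact hfirst j h

lemma QQ_iter_derivative (N w i : ℕ) (hi : i ≤ w) (hw : w + 1 ≤ p) (hN : N < p) :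
    (derivative^[i]) (QQ p N w) = QQ p N (w - i) := by
  induction i with
  | zero => simp
  | succ i ih =>
    rw [Function.iterate_succ_apply', ih (by omega)]
    have h : w - i = (w - (i + 1)) + 1 := by omega
    rw [h, QQ_derivative N _ (by omega) hN]

/-- the main combinatorial contradiction -/
lemma no_window (n I N : ℕ) (hn : 1 ≤ n) (hN : 1 ≤ N) (hNI : n ≤ N * (2 * I + 1))
    (hw : n + I + N + 2 ≤ p) (h2N : 2 * N < p)
    (hc : ∀ k, n + 1 ≤ k → k ≤ n + I + N → cc p k = 0) : False := by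
  obtain ⟨M, rfl⟩ : ∃ M, N = M + 1 := ⟨N - 1, by omega⟩
  set w := n + I + (M + 1) with hwdef
  have hvan := QQ_vanish (p := p) n w hn (by omega) (fun k h1 h2 => hc k h1 h2) M
  set Q := QQ p M w with hQ
  have htop : Q.coeff w ≠ 0 := by
    rw [hQ, QQ_coeff_top M w (by omega)]
    exact inv_ne_zero (fact_ne_zero (by omega))
  have hQ0 : Q ≠ 0 := by
    intro h; rw [h] at htop; simp at htop
  have h2 := nat_ne_zero (p := p) (k := 2) (by norm_num) (by omega)
  -- the nodes
  set Z : Finset (ZMod p) := (range (2 * (M + 1) + 1)).image (fun j : ℕ => (j : ZMod p) * 2⁻¹) with hZ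
  have hZcard : Z.card = 2 * (M + 1) + 1 := by
    rw [hZ, Finset.card_image_of_injOn, Finset.card_range]
    intro a ha b hb hab
    rw [Finset.coe_range, Set.mem_Iio] at ha hb
    have h2' : (2 : ZMod p)⁻¹ ≠ 0 := inv_ne_zero (by exact_mod_cast h2)
    have hab' : (a : ZMod p) = (b : ZMod p) := mul_right_cancel₀ h2' hab
    rw [ZMod.natCast_eq_natCast_iff'] at hab'
    rwa [Nat.mod_eq_of_lt (by omega), Nat.mod_eq_of_lt (by omega)] at hab'
  have hmult : ∀ z ∈ Z, I < Q.rootMultiplicity z := by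
    intro z hz
    rw [hZ, Finset.mem_image] at hz
    obtain ⟨j, hj, rfl⟩ := hz
    rw [Finset.mem_range] at hj
    refine lt_rootMultiplicity_of_isRoot_iterate_derivative_of_mem_nonZeroDivisors hQ0 ?_ ?_
    · intro m hm
      rw [hQ, QQ_iter_derivative M w m (by omega) (by omega) (by omega)]
      exact hvan (w - m) (by omega) (by omega) j (by omega)
    · exact mem_nonZeroDivisors_of_ne_zero (fact_ne_zero (by omega))
  have hcount : (I + 1) * Z.card ≤ Q.roots.card := by
    calc (I + 1) * Z.card = ∑ z ∈ Z, (I + 1) := by rw [Finset.sum_const, smul_eq_mul, mul_comm]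
      _ ≤ ∑ z ∈ Z, Q.roots.count z := by
          refine Finset.sum_le_sum (fun z hz => ?_)
          rw [count_roots]
          exact hmult z hz
      _ ≤ Q.roots.card := by
          have hsub : Z ⊆ Q.roots.toFinset := by
            intro z hz
            rw [Multiset.mem_toFinset, ← Multiset.count_pos, count_roots]
            have := hmult z hz
            omega
          calc ∑ z ∈ Z, Q.roots.count z ≤ ∑ z ∈ Q.roots.toFinset, Q.roots.count z :=
                Finset.sum_le_sum_of_subset hsub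
            _ = Q.roots.card := Multiset.toFinset_sum_count_eq _
  have hdeg : Q.roots.card ≤ w := (Polynomial.card_roots' Q).trans (QQ_natDegree_le M w)
  rw [hZcard] at hcount
  have h5 : (I + 1) * (2 * (M + 1) + 1) = (M + 1) * (2 * I + 1) + (I + (M + 1)) + 1 := by ring
  omega

end Pool.Agent.H332R2
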